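import Pool.Agent.Lib.P6a51b6.SplitData
import Pool.Agent.Lib.P6a51b6.Ght

/-!
# MP_6a51b6_co: nontrivial vertex splitting preserves global rigidity in every dimension
-/

set_option autoImplicit false

namespace Pool.Agent.Results.MP_6a51b6_co.VertexSplitting

/-- A framework `p : V → ℝ^d` is generic if its `d |V|` coordinates are algebraically independent
over the rationals. -/
def IsGeneric {V : Type*} {d : ℕ} (p : V → EuclideanSpace ℝ (Fin d)) : Prop :=
  AlgebraicIndependent ℚ (fun x : V × Fin d => p x.1 x.2)

/-- The framework `(G, p)` is globally rigid: every placement `q` with the same edge lengths has the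
same distances between all pairs of vertices. -/
def IsGloballyRigidFramework {V : Type*} {d : ℕ} (G : SimpleGraph V)
    (p : V → EuclideanSpace ℝ (Fin d)) : Prop :=
  ∀ q : V → EuclideanSpace ℝ (Fin d),
    (∀ u v, G.Adj u v → dist (q u) (q v) = dist (p u) (p v)) →
      ∀ u v, dist (q u) (q v) = dist (p u) (p v)

/-- The graph `G` is globally rigid in `ℝ^d`: every generic framework of `G` is globally rigid. -/
def IsGloballyRigid {V : Type*} (G : SimpleGraph V) (d : ℕ) : Prop :=
  ∀ p : V → EuclideanSpace ℝ (Fin d), IsGeneric p → IsGloballyRigidFramework G p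

/-- The graph obtained from `H` by deleting `v` and adding two new vertices `v₁ = Sum.inr false` and
`v₂ = Sum.inr true`, joined by the bridging edge, where `v₁` is joined to every vertex of `A₁ ∪ C`
and `v₂` to every vertex of `A₂ ∪ C`. -/
def splitGraph {V : Type*} (H : SimpleGraph V) (v : V) (A₁ C A₂ : Set V) :
    SimpleGraph ({u : V // u ≠ v} ⊕ Bool) where
  Adj x y :=
    match x, y with
    | Sum.inl a, Sum.inl b => H.Adj a b
    | Sum.inl a, Sum.inr false => (a : V) ∈ A₁ ∪ C
    | Sum.inl a, Sum.inr true => (a : V) ∈ A₂ ∪ C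
    | Sum.inr false, Sum.inl a => (a : V) ∈ A₁ ∪ C
    | Sum.inr true, Sum.inl a => (a : V) ∈ A₂ ∪ C
    | Sum.inr i, Sum.inr j => i ≠ j
  symm := by
    constructor
    rintro (a | (_ | _)) (b | (_ | _)) h
    · exact SimpleGraph.Adj.symm h
    all_goals first | exact h | exact Ne.symm h
  loopless := by
    constructor
    rintro (a | i) h
    · exact H.irrefl h
    · cases i <;> exact h rfl

/-- `A₁, C, A₂` is a partition of the neighbour set of `v` into three sets with `|C| = d - 1`. -/
structure IsSplitPartition {V : Type*} (d : ℕ) (H : SimpleGraph V) (v : V) (A₁ C A₂ : Set V) :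
    Prop where
  union : A₁ ∪ C ∪ A₂ = H.neighborSet v
  disjoint_left : Disjoint A₁ C
  disjoint_right : Disjoint C A₂
  disjoint_outer : Disjoint A₁ A₂
  card : C.ncard = d - 1

section transport

open Pool.Agent.Lib.P6a51b6

variable {V : Type*} {d : ℕ}

theorem dist_eq_iff (x y x' y' : EuclideanSpace ℝ (Fin d)) :
    dist x y = dist x' y' ↔ Lib.P6a51b6.sq (x.ofLp - y.ofLp) =
      Lib.P6a51b6.sq (x'.ofLp - y'.ofLp) := by
  have h : ∀ x y : EuclideanSpace ℝ (Fin d),
      dist x y = √(Lib.P6a51b6.sq (x.ofLp - y.ofLp)) := by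
    intro x y
    rw [EuclideanSpace.dist_eq]
    congr 1
    simp only [Lib.P6a51b6.sq, dotProduct, Pi.sub_apply, Real.dist_eq, sq_abs]
    exact Finset.sum_congr rfl fun i _ => by ring
  have h0 : ∀ x : Fin d → ℝ, 0 ≤ Lib.P6a51b6.sq x := by
    intro x
    unfold Lib.P6a51b6.sq dotProduct
    exact Finset.sum_nonneg fun i _ => mul_self_nonneg (x i)
  rw [h, h]
  constructor
  · intro hh
    have := congrArg (fun r => r ^ 2) hh
    simp only [Real.sq_sqrt (h0 _)] at this
    exact this
  · intro hh
    rw [hh]

theorem globallyRigid_iff (G : SimpleGraph V) : IsGloballyRigid G d ↔ GR G d := by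
  constructor
  · intro h p hp q hq u v
    have h1 := h (fun u => WithLp.toLp 2 (p u)) hp (fun u => WithLp.toLp 2 (q u)) (fun u v huv => by
      rw [dist_eq_iff]
      exact hq u v huv) u v
    rw [dist_eq_iff] at h1
    exact h1
  · intro h p hp q hq u v
    rw [dist_eq_iff]
    refine h (fun u => (p u).ofLp) hp (fun u => (q u).ofLp) (fun u v huv => ?_) u v
    have := hq u v huv
    rw [dist_eq_iff] at this
    exact this

/-- global rigidity transported along a bijection of the vertices. -/
theorem gr_transport {U W : Type*} (e : U ≃ W) {K : SimpleGraph U} {L : SimpleGraph W}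
    (hKL' : ∀ a b, K.Adj a b ↔ L.Adj (e a) (e b)) (h : GR L d) : GR K d := by
  intro p hp q hq u v
  have hp' : Generic (fun w => p (e.symm w)) := by
    unfold Generic at hp ⊢
    exact hp.comp (fun x : W × Fin d => (e.symm x.1, x.2)) (by
      rintro ⟨a, i⟩ ⟨b, j⟩ hab
      simp only [Prod.mk.injEq, EmbeddingLike.apply_eq_iff_eq] at hab
      rw [hab.1, hab.2])
  have h1 := h (fun w => p (e.symm w)) hp' (fun w => q (e.symm w)) (fun a b hab => by
    refine hq _ _ ?_
    rw [hKL']
    simpa using hab) (e u) (e v)
  simpa using h1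

/-- the identification of the vertices of the split graph with `Option V` -/
noncomputable def vertexEquiv [DecidableEq V] (v : V) : ({u : V // u ≠ v} ⊕ Bool) ≃ Option V where
  toFun x := x.elim (fun a => some a.1) (fun i => if i then none else some v)
  invFun x := x.elim (Sum.inr true) (fun u => if h : u = v then Sum.inr false else Sum.inl ⟨u, h⟩)
  left_inv := by
    rintro (⟨a, ha⟩ | (_ | _))
    · simp [ha]
    · simp
    · simp
  right_inv := by
    rintro (_ | u)
    · simp
    · by_cases h : u = v
      · subst h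
        simp
      · simp [h]

end transport

open Pool.Agent.Lib.P6a51b6 in
/-- **Nontrivial vertex splitting preserves global rigidity**, in every dimension `d ≥ 1`. -/
theorem result : ∀ (d : ℕ), 1 ≤ d → ∀ (V : Type) [Fintype V] (H : SimpleGraph V) (v : V)
    (A₁ C A₂ : Set V), IsSplitPartition d H v A₁ C A₂ → A₁.Nonempty → A₂.Nonempty →
    IsGloballyRigid H d → IsGloballyRigid (splitGraph H v A₁ C A₂) d := by
  classical
  intro d hd V _ H v A₁ C A₂ hpart hA₁ hA₂ hH
  rw [globallyRigid_iff] at hH ⊢
  -- the graph on `Option V`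
  set e := vertexEquiv v with he
  set G : SimpleGraph (Option V) := (splitGraph H v A₁ C A₂).comap e.symm with hG
  have hGadj : ∀ a b, G.Adj a b ↔ (splitGraph H v A₁ C A₂).Adj (e.symm a) (e.symm b) :=
    fun a b => Iff.rfl
  have hev : e.symm (some v) = Sum.inr false := by simp [he, vertexEquiv]
  have hen : e.symm none = Sum.inr true := by simp [he, vertexEquiv]
  have heu : ∀ u (hu : u ≠ v), e.symm (some u) = Sum.inl ⟨u, hu⟩ := by
    intro u hu
    simp [he, vertexEquiv, hu]
  have hcard : C.toFinset.card + 1 = d := by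
    rw [← Set.ncard_eq_toFinset_card', hpart.card]
    omega
  have hs : IsSplit H v A₁.toFinset C.toFinset A₂.toFinset G d := by
    refine ⟨?_, ?_, ?_, ?_, hcard, ?_, ?_, ?_, ?_⟩
    · intro u
      have h1 : H.Adj v u ↔ u ∈ A₁ ∪ C ∪ A₂ := by
        rw [hpart.union]
        rfl
      rw [h1]
      simp only [Set.mem_union, Set.mem_toFinset]
      tauto
    · intro u hu hu'
      rw [Set.mem_toFinset] at hu hu'
      exact Set.disjoint_left.mp hpart.disjoint_left hu hu'
    · intro u hu hu'
      rw [Set.mem_toFinset] at hu hu'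
      exact Set.disjoint_left.mp hpart.disjoint_right hu' hu
    · intro u hu hu'
      rw [Set.mem_toFinset] at hu hu'
      exact Set.disjoint_left.mp hpart.disjoint_outer hu hu'
    · rw [hGadj, hev, hen]
      exact Bool.noConfusion
    · intro u hu
      rw [hGadj, hev, heu u hu]
      simp only [Set.mem_toFinset]
      exact Iff.rfl
    · intro u hu
      rw [hGadj, hen, heu u hu]
      simp only [Set.mem_toFinset]
      exact Iff.rfl
    · intro u w hu hw
      rw [hGadj, heu u hu, heu w hw]
      exact Iff.rfl
  have hA₁' : A₁.toFinset.Nonempty := by simpa using hA₁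
  have hA₂' : A₂.toFinset.Nonempty := by simpa using hA₂
  -- there are at least `d + 2` vertices
  have hvC : v ∉ C.toFinset := fun h => H.irrefl ((hs.nbr v).mpr (Or.inr (Or.inl h)))
  have hn : d + 2 ≤ Fintype.card V := by
    obtain ⟨a, ha⟩ := hA₁'
    obtain ⟨b, hb⟩ := hA₂'
    have hav : a ≠ v := fun h => H.irrefl ((hs.nbr v).mpr (Or.inl (h ▸ ha)))
    have hbv : b ≠ v := fun h => H.irrefl ((hs.nbr v).mpr (Or.inr (Or.inr (h ▸ hb))))
    have hab : a ≠ b := fun h => hs.disj₃ a ha (h ▸ hb)
    have h1 : (insert a (insert b (insert v C.toFinset))).card = C.toFinset.card + 3 := by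
      rw [Finset.card_insert_of_notMem, Finset.card_insert_of_notMem,
        Finset.card_insert_of_notMem hvC]
      · simp only [Finset.mem_insert, not_or]
        exact ⟨hbv, hs.disj₂ b hb⟩
      · simp only [Finset.mem_insert, not_or]
        exact ⟨hab, hav, hs.disj₁ a ha⟩
    have h2 := Finset.card_le_univ (insert a (insert b (insert v C.toFinset)))
    omega
  obtain ⟨p, hp⟩ := exists_generic V d
  have haff : AffSpan p := hp.affSpan (by omega)
  have hInf : InfRigid H p := infRigid_of_GR hH hp
  obtain ⟨w, hw, hmax⟩ := ght (by omega) hn hH hp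
  have hconn : ConnOff H (insert v (C.toFinset : Set V)) := by
    have h1 : (insert v C.toFinset).card = d := by
      rw [Finset.card_insert_of_notMem hvC]
      exact hcard
    have h2 := connOff_of_GR hH (by omega) h1
    rw [Finset.coe_insert] at h2
    exact h2
  obtain ⟨p₁, w₁, hi₁, ha₁, hw₁, hm₁⟩ := split_data hs hA₁' hA₂' hp haff hInf hconn hw hmax
  have hGR : GR G d := sufficiency (by rw [Fintype.card_option]; omega) hi₁ ha₁ hw₁ hm₁
  refine gr_transport e (fun a b => ?_) hGR
  rw [hGadj, e.symm_apply_apply, e.symm_apply_apply]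

end Pool.Agent.Results.MP_6a51b6_co.VertexSplitting
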